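import Pool.Agent.MWGN.StmtsA
import Pool.Agent.Helper27_MWF.POW
import Pool.Agent.Helper77_MWF.CTT
import Pool.Agent.Helper42_MWF.SIM

/-!
# Squad MWGN, row CLS (MP_23468a_al): one letter words with one simple letter
-/

set_option autoImplicit false

namespace Pool.Agent.MWGN.H77

open Pool.Agent.Helper14_MV Pool.Agent.Helper2_MV
open Pool.Agent.MWK (pre Gw)
open Pool.Agent.MWF (Ap gaml)

/-- the word `0^a 1 0^b` -/
def W (a b : ℕ) : List ℕ := List.replicate a 0 ++ 1 :: List.replicate b 0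

theorem cls : ClsStmt := by
  intro β hG hE a b a' b' h
  have hap := hG.ap
  have hct := MWF.H77.ctt MWF.H27.pow
  have hsi := MWF.H42.sim MWF.H27.pow hct
  have pw : ∀ i j : ℕ, 2 ≤ i → 2 ≤ j → RR β (List.replicate i 0) (List.replicate j 0) :=
    fun i j hi hj => MWF.H27.pow β hap.sq 0 i j hi hj
  -- the letter `0` in front
  have fr : ∀ {u v : List ℕ}, RR β u v → RR β (0 :: u) (0 :: v) := fun huv =>
    (RR.refl (β := β) [0]).append huv
  have g3 : RR β [0, 0, 1, 0] [0, 0, 1, 0, 0] := fr hG.gm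
  have d1 : RR β [0, 0, 0, 1] [0, 0, 1] := (pw 3 2 (by omega) (by omega)).append (RR.refl [1])
  have d3 : RR β [0, 0, 0, 1, 0] [0, 0, 1, 0] :=
    (pw 3 2 (by omega) (by omega)).append (RR.refl [1, 0])
  -- counts
  have cnt : ∀ a b : ℕ, (W a b).count 0 = a + b := by
    intro a b
    rw [W, List.count_append, List.count_cons_of_ne (by decide), List.count_replicate_self,
      List.count_replicate_self]
  have h0 : a + b = 0 ↔ a' + b' = 0 := by
    have h1 := hct β hap _ _ h 0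
    have h2 : ∀ a b : ℕ, (0 : ℕ) ∈ W a b ↔ ¬ a + b = 0 := by
      intro a b
      rw [← cnt a b, List.count_eq_zero, not_not]
    have h3 : (0 : ℕ) ∈ W a b ↔ (0 : ℕ) ∈ W a' b' := h1
    rw [h2, h2] at h3
    omega
  have h1 : a + b = 1 ↔ a' + b' = 1 := by
    have h2 := hsi β hap _ _ h 0
    have h3 := hsi β hap _ _ h.symm 0
    have h4 : (W a b).count 0 = 1 → (W a' b').count 0 = 1 := h2
    have h5 : (W a' b').count 0 = 1 → (W a b).count 0 = 1 := h3
    rw [cnt, cnt] at h4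
    rw [cnt, cnt] at h5
    exact ⟨h4, h5⟩
  by_cases c0 : a + b = 0
  · have c0' := h0.1 c0
    omega
  by_cases c1 : a + b = 1
  · have c1' := h1.1 c1
    -- no commutation
    have hnc : ¬ RR β [0, 1] [1, 0] := by
      intro hc
      apply hG.nb
      have e1 : RR β [0, 1, 0] [0, 0, 1] := (fr hc).symm
      have e2 : RR β [0, 0, 1] [0, 0, 0, 0, 1] := (pw 2 4 (by omega) (by omega)).append (RR.refl [1])
      have e3 : RR β [0, 0, 0, 0, 1] [0, 0, 0, 1, 0] := fr (fr (fr hc))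
      have e4 : RR β [0, 0, 0, 1, 0] [0, 0, 1, 0, 0] := fr (fr (hc.append (RR.refl [0])))
      exact β.trans (β.trans (β.trans e1 e2) e3) e4
    have ca : (a = 0 ∧ b = 1) ∨ (a = 1 ∧ b = 0) := by omega
    have ca' : (a' = 0 ∧ b' = 1) ∨ (a' = 1 ∧ b' = 0) := by omega
    rcases ca with ⟨rfl, rfl⟩ | ⟨rfl, rfl⟩ <;> rcases ca' with ⟨rfl, rfl⟩ | ⟨rfl, rfl⟩
    · omega
    · exact absurd (RR.symm h) hnc
    · exact absurd h hnc
    · omega
  have hn : 2 ≤ a + b := by omega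
  have hn' : 2 ≤ a' + b' := by omega
  -- normal forms
  have nf : ∀ a b : ℕ, 2 ≤ a + b → (a = 0 ∧ b ≠ 0 ∧ RR β (W a b) [1, 0, 0]) ∨
      (a = 1 ∧ b ≠ 0 ∧ RR β (W a b) [0, 1, 0]) ∨ (2 ≤ a ∧ b = 0 ∧ RR β (W a b) [0, 0, 1]) ∨
        (2 ≤ a ∧ b ≠ 0 ∧ RR β (W a b) [0, 0, 1, 0]) := by
    intro a b hab
    by_cases ha0 : a = 0
    · subst ha0
      exact Or.inl ⟨rfl, by omega, (RR.refl [1]).append (pw b 2 (by omega) (by omega))⟩
    by_cases ha1 : a = 1
    · subst ha1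
      refine Or.inr (Or.inl ⟨rfl, by omega, ?_⟩)
      by_cases hb1 : b = 1
      · subst hb1
        exact RR.refl _
      · exact β.trans ((RR.refl [0, 1]).append (pw b 2 (by omega) (by omega))) hG.gm.symm
    by_cases hb0 : b = 0
    · subst hb0
      exact Or.inr (Or.inr (Or.inl ⟨by omega, rfl,
        (pw a 2 (by omega) (by omega)).append (RR.refl [1])⟩))
    · refine Or.inr (Or.inr (Or.inr ⟨by omega, hb0, ?_⟩))
      have e1 : RR β (W a b) (W 2 b) := (pw a 2 (by omega) (by omega)).append (RR.refl _)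
      refine β.trans e1 ?_
      by_cases hb1 : b = 1
      · subst hb1
        exact RR.refl _
      · exact β.trans ((RR.refl [0, 0, 1]).append (pw b 2 (by omega) (by omega))) g3.symm
  have n13 : ¬ RR β [0, 1, 0] [0, 0, 1, 0] := fun hh => hG.nb (β.trans hh g3)
  have n23 : ¬ RR β [0, 0, 1] [0, 0, 1, 0] := hE
  have n12 : ¬ RR β [0, 1, 0] [0, 0, 1] := fun hh =>
    n23 (RR.symm (β.trans (fr hh) d1))
  have n01 : ¬ RR β [1, 0, 0] [0, 1, 0] := fun hh =>
    n13 (β.trans hG.gm (fr hh))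
  have n02 : ¬ RR β [1, 0, 0] [0, 0, 1] := fun hh =>
    n12 (β.trans hG.gm (β.trans (fr hh) d1))
  have n03 : ¬ RR β [1, 0, 0] [0, 0, 1, 0] := fun hh =>
    n13 (β.trans hG.gm (β.trans (fr hh) d3))
  have hW : RR β (W a b) (W a' b') := h
  rcases nf a b hn with ⟨x1, x2, x3⟩ | ⟨x1, x2, x3⟩ | ⟨x1, x2, x3⟩ | ⟨x1, x2, x3⟩ <;>
    rcases nf a' b' hn' with ⟨y1, y2, y3⟩ | ⟨y1, y2, y3⟩ | ⟨y1, y2, y3⟩ | ⟨y1, y2, y3⟩ <;>
    have hr := β.trans (RR.symm x3) (β.trans hW y3)
  · omega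
  · exact absurd hr n01
  · exact absurd hr n02
  · exact absurd hr n03
  · exact absurd (RR.symm hr) n01
  · omega
  · exact absurd hr n12
  · exact absurd hr n13
  · exact absurd (RR.symm hr) n02
  · exact absurd (RR.symm hr) n12
  · omega
  · exact absurd hr n23
  · exact absurd (RR.symm hr) n03
  · exact absurd (RR.symm hr) n13
  · exact absurd (RR.symm hr) n23
  · omega

end Pool.Agent.MWGN.H77
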