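import Pool.Agent.MWGN.StmtsC

/-!
# Squad MWGN, part C, row STY (MP_23468a_al): insertion of `η η` keeps `Kx`
-/

set_option autoImplicit false

namespace Pool.Agent.MWGN.H77

open Pool.Agent.Helper14_MV Pool.Agent.Helper2_MV
open Pool.Agent.MWK (pre Gw)

theorem sty (h1 : KfiStmt) (h2 : MpfStmt) (h3 : McfStmt) (h4 : OrdStmt) : StyStmt := by
  intro τ r hr ξ η A M N R u v k g h hI hu hv hM2 hMg hhr hξ hR hh hK
  obtain ⟨hF, hx⟩ := hK
  have hFv : KF τ r v := ((h1 τ r η A M N R k hI u v hu hv).1).1 hF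
  refine ⟨hFv, ?_⟩
  by_contra hne
  obtain ⟨o1, o2, o3, o4⟩ := h4 τ r u hF
  obtain ⟨-, hbR, hz⟩ := h2 η A M N R k hI u v hu hv hM2 0 (NF.L 0) (NF.L (r + 1)) 2 hF.sb hF.xb
    (hF.lb 0 (by omega)) (hF.lb (r + 1) (by omega)) (o4 0 (r + 1) (by omega) (by omega)) hx hne
  have hL : ∀ i < r + 2, NF.L i ∉ A ∧ NF.L i ∉ η ∧ M.count (NF.L i) = 1 ∧
      pre u (NF.L i) = A ++ ((η ++ η) ++ pre M (NF.L i)) := by
    intro i hi
    refine hz (NF.L i) ?_ ?_ (hF.lb i (by omega))
    · by_cases h0 : i = 0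
      · exact Or.inl (by rw [h0])
      · exact Or.inr (o4 0 i (by omega) (by omega))
    · by_cases h0 : i = r + 1
      · exact Or.inl (by rw [h0])
      · exact Or.inr (o4 i (r + 1) (by omega) (by omega))
  let d : ℕ → ℕ := fun j => if j = 0 then 1 else NF.C j
  have hd : ∀ j, j ≠ 0 → d j = NF.C j := fun j hj => if_neg hj
  have key := (h3 (r + 2) (A ++ (η ++ η)) M ((η ++ η) ++ R) u NF.L d g h 2
    (by rw [hu]; simp only [List.append_assoc]) hMg hF.sb (List.mem_append_right _ hbR) (by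
      intro i hi
      obtain ⟨a1, a2, a3, a4⟩ := hL i hi
      refine ⟨?_, a3, hF.lb i (by omega)⟩
      intro hm
      rcases List.mem_append.1 hm with hm | hm
      · exact a1 hm
      · rcases List.mem_append.1 hm with hm | hm
        · exact a2 hm
        · exact a2 hm) (by
      intro j hj
      by_cases h0 : j = 0
      · subst h0
        exact ⟨o1, hF.yb⟩
      · rw [hd j h0]
        exact ⟨o2 j (by omega) (by omega), hF.cb j (by omega) (by omega)⟩) (by
      intro i hi
      obtain ⟨R1, R2, hR12⟩ := hR i hi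
      refine ⟨(η ++ η) ++ R1, R2, ?_⟩
      rw [hR12]
      simp only [List.append_assoc]) hh).2 r (by omega)
  rw [hd r (by omega), hhr] at key
  have hC : NF.C r ∈ A := by
    refine hξ _ ?_
    rcases List.mem_append.1 key with hm | hm
    · exact hm
    · exact hm
  have h5 := hF.cl0 r hr (le_refl r) r (le_refl r)
  have h6 : (pre u (NF.L r)).count (NF.C r) = 0 := h5
  rw [(hL r (by omega)).2.2.2, List.count_append] at h6
  have h7 : 0 < A.count (NF.C r) := List.count_pos_iff.2 hC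
  omega

end Pool.Agent.MWGN.H77
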